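import Pool.Agent.L7h5.SP.Stm

/-! Part CONT of project SP: continuation of a function which becomes regular after multiplication with
each of two exponential factors with one common zero. -/

set_option autoImplicit false

namespace Pool.Agent.L7h93.SP
open Filter Topology

/-- the factor `1 - a ^ (-g s)` -/
noncomputable def fac (a g : ℕ) (s : ℂ) : ℂ := 1 - (a : ℂ) ^ (-((g : ℂ) * s))

theorem fac_diff (a g : ℕ) (ha : 2 ≤ a) : Differentiable ℂ (fac a g) := by
  have h0 : (a : ℂ) ≠ 0 := by
    have : a ≠ 0 := by omega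
    exact_mod_cast this
  unfold fac
  refine (differentiable_const _).sub ?_
  exact ((differentiable_id.const_mul (g : ℂ)).neg).const_cpow (Or.inl h0)

theorem fac_zero (a g : ℕ) : fac a g 0 = 0 := by simp [fac]

theorem fac_deriv (a g : ℕ) (ha : 2 ≤ a) :
    deriv (fac a g) 0 = (g : ℂ) * (Real.log a : ℂ) := by
  have h0 : (a : ℂ) ≠ 0 := by
    have : a ≠ 0 := by omega
    exact_mod_cast this
  have h1 : HasDerivAt (fun s : ℂ => -((g : ℂ) * s)) (-(g : ℂ)) 0 := by
    simpa using ((hasDerivAt_id' (0 : ℂ)).const_mul (g : ℂ)).fun_neg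
  have h2 := h1.const_cpow (c := (a : ℂ)) (Or.inl h0)
  have h3 : HasDerivAt (fac a g)
      (-((a : ℂ) ^ (-((g : ℂ) * 0)) * Complex.log a * (-(g : ℂ)))) 0 := h2.const_sub 1
  rw [h3.deriv]
  have h4 : Complex.log (a : ℂ) = (Real.log a : ℂ) := (Complex.natCast_log (n := a)).symm
  rw [h4]
  simp
  ring

theorem fac_eq_zero {a g : ℕ} (ha : 2 ≤ a) {s : ℂ} (h : fac a g s = 0) :
    ∃ n : ℤ, (Real.log a : ℂ) * ((g : ℂ) * s) = n * (2 * Real.pi * Complex.I) := by
  have h0 : (a : ℂ) ≠ 0 := by
    have : a ≠ 0 := by omega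
    exact_mod_cast this
  have h4 : Complex.log (a : ℂ) = (Real.log a : ℂ) := (Complex.natCast_log (n := a)).symm
  have h1 : (a : ℂ) ^ (-((g : ℂ) * s)) = 1 := by
    unfold fac at h
    linear_combination -h
  rw [Complex.cpow_def_of_ne_zero h0, Complex.exp_eq_one_iff] at h1
  obtain ⟨n, hn⟩ := h1
  refine ⟨-n, ?_⟩
  rw [h4] at hn
  rw [Int.cast_neg]
  linear_combination -hn

theorem no_common {a b g : ℕ} (ha : 2 ≤ a) (hb : 2 ≤ b) (hg : 0 < g)
    (hab : ∀ i j : ℕ, 0 < i → 0 < j → a ^ i ≠ b ^ j) (s : ℂ)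
    (h1 : dslope (fac a g) 0 s = 0) (h2 : dslope (fac b g) 0 s = 0) : False := by
  have hla : 0 < Real.log a := Real.log_pos (by exact_mod_cast (by omega : 1 < a))
  have hlb : 0 < Real.log b := Real.log_pos (by exact_mod_cast (by omega : 1 < b))
  have hg0 : (g : ℂ) ≠ 0 := by exact_mod_cast hg.ne'
  rcases eq_or_ne s 0 with rfl | hs
  · rw [dslope_same, fac_deriv a g ha] at h1
    rcases mul_eq_zero.1 h1 with h | h
    · exact hg0 h
    · exact hla.ne' (by exact_mod_cast h)
  · have e1 : fac a g s = 0 := by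
      have := sub_smul_dslope (fac a g) 0 s
      rw [h1, fac_zero, smul_zero] at this
      simpa using this.symm
    have e2 : fac b g s = 0 := by
      have := sub_smul_dslope (fac b g) 0 s
      rw [h2, fac_zero, smul_zero] at this
      simpa using this.symm
    obtain ⟨n, hn⟩ := fac_eq_zero ha e1
    obtain ⟨m, hm⟩ := fac_eq_zero hb e2
    have hgs : (g : ℂ) * s ≠ 0 := mul_ne_zero hg0 hs
    have hlac : (Real.log a : ℂ) ≠ 0 := by exact_mod_cast hla.ne'
    have hlbc : (Real.log b : ℂ) ≠ 0 := by exact_mod_cast hlb.ne'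
    have hn0 : n ≠ 0 := by
      rintro rfl
      simp only [Int.cast_zero, zero_mul] at hn
      exact (mul_ne_zero hlac hgs) hn
    have hm0 : m ≠ 0 := by
      rintro rfl
      simp only [Int.cast_zero, zero_mul] at hm
      exact (mul_ne_zero hlbc hgs) hm
    have key : (m : ℂ) * (Real.log a : ℂ) = (n : ℂ) * (Real.log b : ℂ) := by
      have : ((g : ℂ) * s) * ((m : ℂ) * (Real.log a : ℂ)) =
          ((g : ℂ) * s) * ((n : ℂ) * (Real.log b : ℂ)) := by
        linear_combination (m : ℂ) * hn - (n : ℂ) * hm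
      exact mul_left_cancel₀ hgs this
    have keyR : (m : ℝ) * Real.log a = (n : ℝ) * Real.log b := by exact_mod_cast key
    have keyA : (m.natAbs : ℝ) * Real.log a = (n.natAbs : ℝ) * Real.log b := by
      have := congrArg abs keyR
      rw [abs_mul, abs_mul, abs_of_pos hla, abs_of_pos hlb] at this
      rw [Nat.cast_natAbs, Nat.cast_natAbs]
      push_cast
      exact this
    have hpow : (a : ℝ) ^ m.natAbs = (b : ℝ) ^ n.natAbs := by
      have ha0 : (0 : ℝ) < a := by positivity
      have hb0 : (0 : ℝ) < b := by positivity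
      apply Real.log_injOn_pos (Set.mem_Ioi.2 (by positivity)) (Set.mem_Ioi.2 (by positivity))
      rw [Real.log_pow, Real.log_pow]
      exact keyA
    exact hab m.natAbs n.natAbs (Int.natAbs_pos.2 hm0) (Int.natAbs_pos.2 hn0)
      (by exact_mod_cast hpow)

theorem s_CONT : Pool.Agent.L7h5.SP.S_CONT := by
  intro L W W' a b g ha hb hg hab hW hW' hW0 hW0' hL hL'
  set c0 := dslope (fac a g) 0 with hc0
  set d0 := dslope (fac b g) 0 with hd0
  set V := dslope W 0 with hV
  set V' := dslope W' 0 with hV'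
  have hn : ({1}ᶜ : Set ℂ) ∈ 𝓝 (0 : ℂ) := isOpen_compl_singleton.mem_nhds (by simp)
  have ho : IsOpen ({1}ᶜ : Set ℂ) := isOpen_compl_singleton
  have dc : DifferentiableOn ℂ c0 {1}ᶜ :=
    (Complex.differentiableOn_dslope hn).2 (fac_diff a g ha).differentiableOn
  have dd : DifferentiableOn ℂ d0 {1}ᶜ :=
    (Complex.differentiableOn_dslope hn).2 (fac_diff b g hb).differentiableOn
  have dV : DifferentiableOn ℂ V {1}ᶜ := (Complex.differentiableOn_dslope hn).2 hW
  have dV' : DifferentiableOn ℂ V' {1}ᶜ := (Complex.differentiableOn_dslope hn).2 hW'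
  have eV : ∀ s : ℂ, s * V s = W s := by
    intro s
    have := sub_smul_dslope W 0 s
    rw [hW0] at this
    simpa using this
  have eV' : ∀ s : ℂ, s * V' s = W' s := by
    intro s
    have := sub_smul_dslope W' 0 s
    rw [hW0'] at this
    simpa using this
  have ec : ∀ s : ℂ, s * c0 s = fac a g s := by
    intro s
    have := sub_smul_dslope (fac a g) 0 s
    rw [fac_zero] at this
    simpa using this
  have ed : ∀ s : ℂ, s * d0 s = fac b g s := by
    intro s
    have := sub_smul_dslope (fac b g) 0 s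
    rw [fac_zero] at this
    simpa using this
  have hs0 : ∀ s : ℂ, 1 < s.re → s ≠ 0 := by
    rintro s hs rfl
    simp at hs
    linarith
  have eL : ∀ s : ℂ, 1 < s.re → c0 s * L s = V s := by
    intro s hs
    apply mul_left_cancel₀ (hs0 s hs)
    rw [← mul_assoc, ec, eV]
    exact hL s hs
  have eL' : ∀ s : ℂ, 1 < s.re → d0 s * L s = V' s := by
    intro s hs
    apply mul_left_cancel₀ (hs0 s hs)
    rw [← mul_assoc, ed, eV']
    exact hL' s hs
  -- the identity on the connected set
  have hpre : IsPreconnected ({1}ᶜ : Set ℂ) :=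
    (isConnected_compl_singleton_of_one_lt_rank (by
      rw [Complex.rank_real_complex]; norm_num) (1 : ℂ)).isPreconnected
  have hid : Set.EqOn (fun s => V s * d0 s) (fun s => V' s * c0 s) {1}ᶜ := by
    refine AnalyticOnNhd.eqOn_of_preconnected_of_eventuallyEq (z₀ := (2 : ℂ))
      ((dV.mul dd).analyticOnNhd ho) ((dV'.mul dc).analyticOnNhd ho) hpre (by norm_num) ?_
    have hopen : IsOpen {s : ℂ | 1 < s.re} := isOpen_lt continuous_const Complex.continuous_re
    filter_upwards [hopen.mem_nhds (show (1 : ℝ) < (2 : ℂ).re by norm_num)] with s hs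
    have h1 := eL s hs
    have h2 := eL' s hs
    show V s * d0 s = V' s * c0 s
    rw [← h1, ← h2]
    ring
  have hno : ∀ s : ℂ, c0 s = 0 → d0 s ≠ 0 := fun s h1 h2 => no_common ha hb hg hab s h1 h2
  classical
  refine ⟨fun s => if c0 s ≠ 0 then V s / c0 s else V' s / d0 s, ?_, ?_⟩
  · intro s hs
    have hs1 : ({1}ᶜ : Set ℂ) ∈ 𝓝 s := ho.mem_nhds hs
    apply DifferentiableAt.differentiableWithinAt
    by_cases h : c0 s = 0
    · have hd : d0 s ≠ 0 := hno s h
      have hdd : DifferentiableAt ℂ d0 s := dd.differentiableAt hs1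
      have hev : ∀ᶠ z in 𝓝 s, d0 z ≠ 0 := hdd.continuousAt.eventually_ne hd
      have hq : DifferentiableAt ℂ (fun z => V' z / d0 z) s :=
        (dV'.differentiableAt hs1).div hdd hd
      refine hq.congr_of_eventuallyEq ?_
      filter_upwards [hev, hs1] with z hz hz1
      by_cases hcz : c0 z = 0
      · simp [hcz]
      · have := hid hz1
        simp only at this
        simp only [ne_eq, hcz, not_false_eq_true, if_true]
        rw [div_eq_div_iff hcz hz]
        exact this
    · have hcd : DifferentiableAt ℂ c0 s := dc.differentiableAt hs1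
      have hev : ∀ᶠ z in 𝓝 s, c0 z ≠ 0 := hcd.continuousAt.eventually_ne h
      have hq : DifferentiableAt ℂ (fun z => V z / c0 z) s :=
        (dV.differentiableAt hs1).div hcd h
      refine hq.congr_of_eventuallyEq ?_
      filter_upwards [hev] with z hz
      simp [hz]
  · intro s hs
    by_cases h : c0 s = 0
    · have hd : d0 s ≠ 0 := hno s h
      simp only [ne_eq, h, not_true_eq_false, if_false]
      rw [← eL' s hs]
      field_simp
    · simp only [ne_eq, h, not_false_eq_true, if_true]
      rw [← eL s hs]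
      field_simp

end Pool.Agent.L7h93.SP
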